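import Pool.Agent.helper55.NM.Spec

namespace Pool.Agent.helper92.NM

open Pool.Agent.NM Finset Nat

theorem LYB (hPMX : PMX_stmt) : LYB_stmt := by
  intro α _ _ 𝒜 ρ hA hne hcard h1 h2
  have hC : (0 : ℝ) ≤ 3 * ρ * (1 - ρ) ^ 2 := by
    have : 0 ≤ (1 - ρ) ^ 2 := sq_nonneg _
    exact mul_nonneg (by linarith) this
  have hterm : ∀ A ∈ 𝒜, ρ ^ A.card * (1 - ρ) ^ (Fintype.card α - A.card) ≤
      3 * ρ * (1 - ρ) ^ 2 * ((((Fintype.card α).choose A.card : ℕ) : ℝ))⁻¹ := by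
    intro A hAm
    have ha1 : 1 ≤ A.card := Finset.card_pos.mpr (hne A hAm)
    have ha2 : A.card ≤ Fintype.card α := Finset.card_le_univ A
    have h3 := hPMX (Fintype.card α) A.card ρ hcard ha1 ha2 h1 h2
    have hpos : (0 : ℝ) < ((Fintype.card α).choose A.card : ℝ) := by
      exact_mod_cast Nat.choose_pos ha2
    rw [← div_eq_mul_inv, le_div_iff₀ hpos, mul_comm]
    exact h3
  have hLYM : ∑ s ∈ 𝒜, ((((Fintype.card α).choose s.card : ℕ) : ℝ))⁻¹ ≤ 1 :=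
    Finset.lubell_yamamoto_meshalkin_inequality_sum_inv_choose (𝕜 := ℝ) hA
  calc ∑ A ∈ 𝒜, ρ ^ A.card * (1 - ρ) ^ (Fintype.card α - A.card)
      ≤ ∑ A ∈ 𝒜, 3 * ρ * (1 - ρ) ^ 2 * ((((Fintype.card α).choose A.card : ℕ) : ℝ))⁻¹ :=
        Finset.sum_le_sum hterm
    _ = 3 * ρ * (1 - ρ) ^ 2 * ∑ A ∈ 𝒜, ((((Fintype.card α).choose A.card : ℕ) : ℝ))⁻¹ := by
        rw [Finset.mul_sum]
    _ ≤ 3 * ρ * (1 - ρ) ^ 2 * 1 := mul_le_mul_of_nonneg_left hLYM hC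
    _ = 3 * ρ * (1 - ρ) ^ 2 := mul_one _

end Pool.Agent.helper92.NM
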